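import Mathlib

set_option autoImplicit false

namespace Pool.Agent.Results.MP_9c346b_co.Zigzag

open Finset

/-- The number of unordered pairs of points of `X` at distance `d`. -/
noncomputable def mult (X : Finset ℂ) (d : ℝ) : ℕ :=
  (X.offDiag.filter fun p => dist p.1 p.2 = d).card / 2

/-- The distinct distances occurring in `X`. -/
noncomputable def dists (X : Finset ℂ) : Finset ℝ := X.offDiag.image fun p => dist p.1 p.2

/-- The multiset of multiplicities `a(X)`. -/
noncomputable def mults (X : Finset ℂ) : Multiset ℕ := (dists X).val.map (mult X)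

def pt (j : ℕ) : ℂ := ⟨j, (j % 2 : ℕ)⟩

noncomputable def del (k : ℕ) : ℝ := √((k * k + k % 2 : ℕ) : ℝ)

theorem pt_inj : Function.Injective pt := fun i j h => by
  have : (i : ℝ) = j := congrArg Complex.re h
  exact_mod_cast this

theorem del_inj : Function.Injective del := by
  intro k l h
  have h1 : ((k * k + k % 2 : ℕ) : ℝ) = (l * l + l % 2 : ℕ) :=
    (Real.sqrt_inj (Nat.cast_nonneg _) (Nat.cast_nonneg _)).1 h
  have h2 : k * k + k % 2 = l * l + l % 2 := by exact_mod_cast h1
  rcases lt_trichotomy k l with q | q | q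
  · have : (k + 1) * (k + 1) ≤ l * l := Nat.mul_le_mul q q
    have e : (k + 1) * (k + 1) = k * k + 2 * k + 1 := by ring
    omega
  · exact q
  · have : (l + 1) * (l + 1) ≤ k * k := Nat.mul_le_mul q q
    have e : (l + 1) * (l + 1) = l * l + 2 * l + 1 := by ring
    omega

theorem dist_pt (i k : ℕ) : dist (pt i) (pt (i + k)) = del k := by
  rw [Complex.dist_eq_re_im, del]
  congr 1
  simp only [pt]
  rcases Nat.mod_two_eq_zero_or_one i with h | h <;> rcases Nat.mod_two_eq_zero_or_one k with h' | h'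
  · rw [h, h', show (i + k) % 2 = 0 by omega]; push_cast; ring
  · rw [h, h', show (i + k) % 2 = 1 by omega]; push_cast; ring
  · rw [h, h', show (i + k) % 2 = 1 by omega]; push_cast; ring
  · rw [h, h', show (i + k) % 2 = 0 by omega]; push_cast; ring

theorem pair_cases {n : ℕ} {p : ℂ × ℂ} (h : p ∈ ((range n).image pt).offDiag) :
    ∃ i k, 1 ≤ k ∧ i + k < n ∧ (p = (pt i, pt (i + k)) ∨ p = (pt (i + k), pt i)) := by
  obtain ⟨h1, h2, h3⟩ := mem_offDiag.1 h
  obtain ⟨i, hi, e1⟩ := mem_image.1 h1
  obtain ⟨j, hj, e2⟩ := mem_image.1 h2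
  rw [mem_range] at hi hj
  rcases lt_trichotomy i j with q | q | q
  · exact ⟨i, j - i, by omega, by omega, Or.inl (by rw [Nat.add_sub_cancel' q.le, e1, e2])⟩
  · exact absurd (by rw [← e1, ← e2, q]) h3
  · exact ⟨j, i - j, by omega, by omega, Or.inr (by rw [Nat.add_sub_cancel' q.le, e1, e2])⟩

theorem pair_mem {n i j : ℕ} (hi : i < n) (hj : j < n) (h : i ≠ j) :
    (pt i, pt j) ∈ ((range n).image pt).offDiag :=
  mem_offDiag.2 ⟨mem_image_of_mem _ (mem_range.2 hi), mem_image_of_mem _ (mem_range.2 hj),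
    pt_inj.ne h⟩

theorem mult_eq {n k : ℕ} (hk : 1 ≤ k) : mult ((range n).image pt) (del k) = n - k := by
  have e : (((range n).image pt).offDiag.filter fun p => dist p.1 p.2 = del k) =
      (range (n - k)).image (fun i => (pt i, pt (i + k))) ∪
        (range (n - k)).image (fun i => (pt (i + k), pt i)) := by
    ext p
    simp only [mem_filter, mem_union, mem_image (s := range (n - k)), mem_range]
    constructor
    · rintro ⟨h1, h2⟩
      obtain ⟨i, l, -, h4, rfl | rfl⟩ := pair_cases h1
      · rw [dist_pt] at h2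
        obtain rfl := del_inj h2
        exact Or.inl ⟨i, by omega, rfl⟩
      · rw [dist_comm, dist_pt] at h2
        obtain rfl := del_inj h2
        exact Or.inr ⟨i, by omega, rfl⟩
    · rintro (⟨i, hi, rfl⟩ | ⟨i, hi, rfl⟩)
      · exact ⟨pair_mem (by omega) (by omega) (by omega), dist_pt i k⟩
      · exact ⟨pair_mem (by omega) (by omega) (by omega), by rw [dist_comm, dist_pt]⟩
  rw [mult, e, card_union_of_disjoint, card_image_of_injective, card_image_of_injective, card_range]
  · omega
  · exact fun i j h => pt_inj (congrArg Prod.snd h)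
  · exact fun i j h => pt_inj (congrArg Prod.fst h)
  · rw [disjoint_left]
    intro p h1 h2
    obtain ⟨i, -, rfl⟩ := mem_image.1 h1
    obtain ⟨j, -, e⟩ := mem_image.1 h2
    have e1 := pt_inj (congrArg Prod.fst e)
    have e2 := pt_inj (congrArg Prod.snd e)
    omega

theorem dists_eq (n : ℕ) : dists ((range n).image pt) = (Icc 1 (n - 1)).image del := by
  ext d
  simp only [dists, mem_image (f := fun p : ℂ × ℂ => dist p.1 p.2), mem_image (f := del), mem_Icc]
  constructor
  · rintro ⟨p, hp, rfl⟩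
    obtain ⟨i, k, h1, h2, rfl | rfl⟩ := pair_cases hp
    · exact ⟨k, ⟨h1, by omega⟩, (dist_pt i k).symm⟩
    · exact ⟨k, ⟨h1, by omega⟩, by rw [dist_comm, dist_pt]⟩
  · rintro ⟨k, ⟨h1, h2⟩, rfl⟩
    exact ⟨(pt 0, pt (0 + k)), pair_mem (by omega) (by omega) (by omega), dist_pt 0 k⟩

theorem result : ∀ n : ℕ, 7 ≤ n → ∃ X : Finset ℂ, X.card = n ∧ mults X = (Icc 1 (n - 1)).val ∧
    ¬ Collinear ℝ (X : Set ℂ) ∧ ∀ (c : ℂ) (r : ℝ), ¬ (X : Set ℂ) ⊆ insert c (Metric.sphere c r) := by
  intro n hn
  have hm : ∀ j, j < n → pt j ∈ (((range n).image pt : Finset ℂ) : Set ℂ) := fun j hj =>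
    mem_coe.2 (mem_image_of_mem _ (mem_range.2 hj))
  refine ⟨(range n).image pt, by rw [card_image_of_injective _ pt_inj, card_range], ?_, ?_, ?_⟩
  · rw [mults, dists_eq, image_val_of_injOn del_inj.injOn, Multiset.map_map,
      Multiset.map_congr (f := mult ((range n).image pt) ∘ del) (g := fun k => n - k) rfl
        fun k hk => mult_eq (mem_Icc.1 hk).1,
      ← image_val_of_injOn]
    · congr 1
      ext k
      simp only [mem_image, mem_Icc]
      exact ⟨fun ⟨l, h1, h2⟩ => by omega, fun h => ⟨n - k, by omega, by omega⟩⟩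
    · intro a ha b hb e
      simp only [coe_Icc, Set.mem_Icc] at ha hb e
      omega
  · intro h
    obtain ⟨v, hv⟩ := (collinear_iff_of_mem (hm 0 (by omega))).1 h
    obtain ⟨a, ha⟩ := hv _ (hm 1 (by omega))
    obtain ⟨b, hb⟩ := hv _ (hm 2 (by omega))
    have a2 := congrArg Complex.im ha
    have b1 := congrArg Complex.re hb
    have b2 := congrArg Complex.im hb
    simp [pt] at a2 b1 b2
    rcases b2 with q | q
    · rw [q] at b1; norm_num at b1
    · rw [q] at a2; norm_num at a2
  · intro c r h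
    have key : ∀ j : ℕ, 2 * j < n → (c.re = 2 * j ∧ c.im = 0) ∨
        (2 * j - c.re) ^ 2 + c.im ^ 2 = r ^ 2 := by
      intro j hj
      have e : pt (2 * j) = ⟨2 * j, 0⟩ := by simp [pt]
      rcases h (hm _ hj) with q | q
      · left; rw [← q, e]; exact ⟨rfl, rfl⟩
      · right
        rw [Metric.mem_sphere, Complex.dist_eq_re_im, e] at q
        rw [← q, Real.sq_sqrt (by positivity)]
        ring
    have k0 := key 0 (by omega)
    have k1 := key 1 (by omega)
    have k2 := key 2 (by omega)
    have k3 := key 3 (by omega)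
    push_cast at k0 k1 k2 k3
    rcases k0 with k0 | k0 <;> rcases k1 with k1 | k1 <;> rcases k2 with k2 | k2 <;>
      rcases k3 with k3 | k3 <;> first | linarith [k0.1, k1.1] | linarith [k0.1, k2.1] | linarith [k0.1, k3.1] | linarith [k1.1, k2.1] | linarith [k1.1, k3.1] | linarith [k2.1, k3.1] | nlinarith

end Pool.Agent.Results.MP_9c346b_co.Zigzag
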